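import Mathlib
import Pool.Agent.MP_12d2c5_pr.NoIso

open MeasureTheory

namespace Pool.Agent.Results.MP_12d2c5_pr.NoFixedGraph

universe u

/-- The subgraph of `G` formed by the edges that are open in the configuration `ω`. -/
def forest {V : Type} (G : SimpleGraph V) (ω : Sym2 V → Bool) : SimpleGraph V :=
  G ⊓ SimpleGraph.fromEdgeSet {e | ω e = true}

/-- The distance-`r` component graph of a subgraph `F` of `G`. -/
def compGraph {V : Type} (G F : SimpleGraph V) (r : ℕ) : SimpleGraph F.ConnectedComponent :=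
  SimpleGraph.fromRel fun k₁ k₂ => ∃ u v : V, F.connectedComponentMk u = k₁ ∧
    F.connectedComponentMk v = k₂ ∧ G.dist u v ≤ r

/-- The number of spanning trees of the ball of radius `n` around `o` that contain `A`. -/
noncomputable def treeCount {V : Type} (G : SimpleGraph V) (o : V) (n : ℕ)
    (A : Finset (Sym2 V)) : ℕ :=
  {T : SimpleGraph ↥({v | G.dist o v ≤ n} : Set V) |
    T ≤ G.induce ({v | G.dist o v ≤ n} : Set V) ∧ T.IsTree ∧
      ∀ e ∈ A, e ∈ (T.map (Function.Embedding.subtype _)).edgeSet}.ncard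

/-- `μ` is the limit of the uniform spanning trees of balls. -/
def IsUSF {V : Type} (G : SimpleGraph V) (μ : Measure (Sym2 V → Bool)) : Prop :=
  ∀ (o : V) (A : Finset (Sym2 V)), (↑A : Set (Sym2 V)) ⊆ G.edgeSet →
    Filter.Tendsto (fun n : ℕ => (treeCount G o n A : ℝ) / (treeCount G o n ∅ : ℝ))
      Filter.atTop (nhds (μ {ω | ∀ e ∈ A, ω e = true}).toReal)

theorem result (V : Type) (G : SimpleGraph V) (hinf : Infinite V) (hconn : G.Connected)
    (hfin : ∀ v : V, (G.neighborSet v).Finite) (htrans : ∀ x y : V, ∃ φ : G ≃g G, φ x = y)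
    (d : ℝ) (hd : 8 < d)
    (hdim : ∃ c C : ℝ, 0 < c ∧ c ≤ C ∧ ∀ (x : V) (n : ℕ), 1 ≤ n →
      c * (n : ℝ) ^ d ≤ (({v | G.dist x v ≤ n} : Set V).ncard : ℝ) ∧
      (({v | G.dist x v ≤ n} : Set V).ncard : ℝ) ≤ C * (n : ℝ) ^ d)
    (r : ℕ) (hr : 1 ≤ r) (μ : Measure (Sym2 V → Bool)) (hμ : IsProbabilityMeasure μ)
    (husf : IsUSF G μ) (W : Type u) (H : SimpleGraph W) :
    μ {ω | Nonempty (compGraph G (forest G ω) r ≃g H)} = 0 := by
  have : Pool.Agent.MP_12d2c5_pr.Nice G := ⟨hinf, hconn, hfin, htrans⟩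
  have hg : Pool.Agent.MP_12d2c5_pr.Growth G d := by
    obtain ⟨c, C, hc0, -, hc⟩ := hdim
    refine ⟨c, C, hc0, fun n hn => ?_⟩
    have e : ({v | G.dist (Pool.Agent.MP_12d2c5_pr.org G) v ≤ n} : Set V).ncard =
        Pool.Agent.MP_12d2c5_pr.bl G n := Set.ncard_eq_toFinset_card _ _
    rw [← e]
    exact hc _ n hn
  have hm := Pool.Agent.MP_12d2c5_pr.measurable_mask G
  have : IsProbabilityMeasure (μ.map (Pool.Agent.MP_12d2c5_pr.mask G)) :=
    Measure.isProbabilityMeasure_map hm.aemeasurable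
  rcases Set.eq_empty_or_nonempty {ω | Nonempty (compGraph G (forest G ω) r ≃g H)} with
    h0 | ⟨ω0, ⟨φ0⟩⟩
  · rw [h0, measure_empty]
  have := Pool.Agent.MP_12d2c5_pr.countable_V G
  have : Countable (forest G ω0).ConnectedComponent :=
    Function.Surjective.countable (f := (forest G ω0).connectedComponentMk) fun C => C.exists_rep
  have key := ae_of_ae_map hm.aemeasurable
    ((Pool.Agent.MP_12d2c5_pr.flim_of_hyp (μ := μ) fun o A hA => by
      simpa [treeCount] using husf o A hA).noIso hg hd hr (compGraph G (forest G ω0) r))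
  refine measure_mono_null ?_ (ae_iff.1 key)
  rintro ω ⟨φ⟩ h
  rw [Pool.Agent.MP_12d2c5_pr.Fg_mask] at h
  exact h.false (φ.trans φ0.symm)

end Pool.Agent.Results.MP_12d2c5_pr.NoFixedGraph
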